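import Pool.Agent.BSH.Stmts

set_option autoImplicit false

/-! Row FAM: the independent family. -/

noncomputable section

namespace Pool.Agent.BSH.H68

open MvPolynomial Pool.Agent.BSH

/-- The polynomial in the outer variable has the lowest part `X ^ e * C g` (up to the possible
vanishing of `g`). -/
def LP {R : Type} [CommRing R] (e : ℕ) (g : R) (P : Polynomial R) : Prop :=
  ∃ Q : Polynomial R, P = Polynomial.X ^ e * (Polynomial.C g + Polynomial.X * Q)

theorem LP.mul {R : Type} [CommRing R] {e e' : ℕ} {g g' : R} {P P' : Polynomial R}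
    (h : LP e g P) (h' : LP e' g' P') : LP (e + e') (g * g') (P * P') := by
  obtain ⟨Q, hQ⟩ := h
  obtain ⟨Q', hQ'⟩ := h'
  refine ⟨Polynomial.C g * Q' + Polynomial.C g' * Q + Polynomial.X * Q * Q', ?_⟩
  rw [hQ, hQ', Polynomial.C_mul]
  ring

theorem LP.one {R : Type} [CommRing R] : LP 0 (1 : R) (1 : Polynomial R) :=
  ⟨0, by simp⟩

theorem LP.pow {R : Type} [CommRing R] {e : ℕ} {g : R} {P : Polynomial R} (h : LP e g P) :
    ∀ m : ℕ, LP (e * m) (g ^ m) (P ^ m) := by
  intro m
  induction m with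
  | zero => simpa using LP.one
  | succ m ih =>
    rw [pow_succ, pow_succ, Nat.mul_succ]
    exact ih.mul h

theorem LP.prod {R : Type} [CommRing R] {ι : Type} (s : Finset ι) (e : ι → ℕ) (g : ι → R)
    (P : ι → Polynomial R) (h : ∀ i ∈ s, LP (e i) (g i) (P i)) :
    LP (∑ i ∈ s, e i) (∏ i ∈ s, g i) (∏ i ∈ s, P i) := by
  classical
  induction s using Finset.induction_on with
  | empty => simpa using LP.one
  | insert a s ha ih =>
    rw [Finset.sum_insert ha, Finset.prod_insert ha, Finset.prod_insert ha]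
    exact (h a (Finset.mem_insert_self a s)).mul
      (ih fun i hi => h i (Finset.mem_insert_of_mem hi))

theorem LP.C {R : Type} [CommRing R] (g : R) : LP 0 g (Polynomial.C g) := ⟨0, by simp⟩

section Sub

variable {E A : Type} [Field E] [CommRing A] [Algebra E A] (W : Submodule E A)

theorem pow_mono (h1 : (1 : A) ∈ W) {a b : ℕ} (hab : a ≤ b) : W ^ a ≤ W ^ b := by
  induction b, hab using Nat.le_induction with
  | base => exact le_rfl
  | succ b _ ih =>
    refine ih.trans ?_
    intro x hx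
    rw [pow_succ]
    have := Submodule.mul_mem_mul hx h1
    rwa [mul_one] at this

theorem pow_mem' {x : A} (hx : x ∈ W) (m : ℕ) : x ^ m ∈ W ^ m :=
  Submodule.pow_mem_pow W hx m

theorem mul_mem' {x y : A} {a b : ℕ} (hx : x ∈ W ^ a) (hy : y ∈ W ^ b) : x * y ∈ W ^ (a + b) := by
  rw [pow_add]
  exact Submodule.mul_mem_mul hx hy

theorem prod_mem' {ι : Type} (s : Finset ι) (e : ι → ℕ) (f : ι → A)
    (h : ∀ i ∈ s, f i ∈ W ^ e i) : ∏ i ∈ s, f i ∈ W ^ ∑ i ∈ s, e i := by
  classical
  induction s using Finset.induction_on with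
  | empty =>
    rw [Finset.prod_empty, Finset.sum_empty, pow_zero]
    exact Submodule.one_le.1 le_rfl
  | insert a s ha ih =>
    rw [Finset.sum_insert ha, Finset.prod_insert ha]
    exact mul_mem' W (h a (Finset.mem_insert_self a s))
      (ih fun i hi => h i (Finset.mem_insert_of_mem hi))

theorem finite_pow (hW : Module.Finite E W) (n : ℕ) : Module.Finite E (W ^ n : Submodule E A) := by
  rw [Module.Finite.iff_fg] at hW ⊢
  exact hW.pow n

end Sub

/-- One factor of the family. -/
def fac {E : Type} [Field E] (d D0 : ℕ) (good : Finset ℕ) (y z : ℕ → MvPolynomial ℕ E) (i m : ℕ) :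
    MvPolynomial ℕ E :=
  if i ∈ good then y i ^ (m / (d - 1)) * z i ^ (D0 - m / (d - 1)) * X i ^ (m % (d - 1))
  else X i ^ m

theorem th_lo {E : Type} [Field E] {k r i : ℕ} (hi : i < k) :
    th E k r (X i) = Polynomial.C (X i) := by
  unfold th
  rw [aeval_X, if_neg (by omega)]

theorem th_hi {E : Type} [Field E] {k r i : ℕ} (hi : k ≤ i) (hi' : i < k + r) :
    th E k r (X i) = Polynomial.X * Polynomial.C (X i) := by
  unfold th
  rw [aeval_X, if_pos ⟨hi, hi'⟩]

theorem alg_id {E : Type} [Field E] (d D0 m : ℕ) (x w : MvPolynomial ℕ E)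
    (hle : m / (d - 1) ≤ D0) :
    (-(C (d : E) * x ^ (d - 1) * w)) ^ (m / (d - 1)) * w ^ (D0 - m / (d - 1)) *
      x ^ (m % (d - 1)) = w ^ D0 * (C ((-(d : E)) ^ (m / (d - 1))) * x ^ m) := by
  have h6 : x ^ m = (x ^ (d - 1)) ^ (m / (d - 1)) * x ^ (m % (d - 1)) := by
    rw [← pow_mul, ← pow_add, Nat.div_add_mod]
  have h7 : w ^ D0 = w ^ (m / (d - 1)) * w ^ (D0 - m / (d - 1)) := by
    rw [← pow_add, Nat.add_sub_cancel' hle]
  have h8 : (-(C (d : E) * x ^ (d - 1) * w)) ^ (m / (d - 1)) =
      C ((-(d : E)) ^ (m / (d - 1))) * (x ^ (d - 1)) ^ (m / (d - 1)) * w ^ (m / (d - 1)) := by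
    rw [C_pow, ← mul_pow, ← mul_pow, C_neg]
    congr 1
    ring
  rw [h6, h7, h8]
  ring

theorem fac_lp {E : Type} [Field E] (k r d D0 M0 : ℕ) (good : Finset ℕ)
    (y z ζ : ℕ → MvPolynomial ℕ E) (hgk : ∀ i ∈ good, i < k)
    (hz : ∀ i ∈ good, LP M0 (ζ i) (th E k r (z i)))
    (hy : ∀ i ∈ good, LP M0 (-(C (d : E) * X i ^ (d - 1) * ζ i)) (th E k r (y i)))
    (i : ℕ) (hi : i < k + r) (m : ℕ) (hα : i ∈ good → m / (d - 1) ≤ D0) :
    LP ((if i ∈ good then M0 * D0 else 0) + if k ≤ i then m else 0)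
        ((if i ∈ good then ζ i ^ D0 else 1) *
          (C (if i ∈ good then (-(d : E)) ^ (m / (d - 1)) else 1) * X i ^ m))
        (th E k r (fac d D0 good y z i m)) := by
  unfold fac
  by_cases hgi : i ∈ good
  · have hik := hgk i hgi
    have hle := hα hgi
    rw [if_pos hgi, if_pos hgi, if_pos hgi, if_pos hgi, if_neg (not_le.2 hik), add_zero,
      ← alg_id d D0 m (X i) (ζ i) hle, map_mul, map_mul, map_pow, map_pow, map_pow, th_lo hik]
    have h3 := (((hy i hgi).pow (m / (d - 1))).mul ((hz i hgi).pow (D0 - m / (d - 1)))).mul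
      ((LP.C (X i : MvPolynomial ℕ E)).pow (m % (d - 1)))
    have h4 : M0 * (m / (d - 1)) + M0 * (D0 - m / (d - 1)) + 0 * (m % (d - 1)) = M0 * D0 := by
      rw [← Nat.mul_add, Nat.add_sub_cancel' hle, zero_mul, add_zero]
    rw [h4] at h3
    exact h3
  · rw [if_neg hgi, if_neg hgi, if_neg hgi, if_neg hgi, zero_add, one_mul, C_1, one_mul, map_pow]
    by_cases hik : k ≤ i
    · rw [if_pos hik, th_hi hik hi]
      have h3 : LP 1 (X i : MvPolynomial ℕ E) (Polynomial.X * Polynomial.C (X i)) := by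
        refine ⟨0, ?_⟩
        rw [mul_zero, add_zero, pow_one]
      have h4 := h3.pow m
      rwa [one_mul] at h4
    · rw [if_neg hik, th_lo (not_le.1 hik)]
      have h4 := (LP.C (X i : MvPolynomial ℕ E)).pow m
      rwa [zero_mul] at h4

theorem fam (hLOW : LowStmt) (hIND : IndStmt) : FamStmt := by
  classical
  intro E _ _ k r d D0 a Φ W hd hmin hΦ h0 hW h1 hX hyz
  obtain ⟨M0, bad, ζ, hbad, hg⟩ := hLOW E k r d a Φ hmin hΦ h0
  set good : Finset ℕ := (Finset.range k).filter fun i => i ∉ bad with hgood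
  have hgk : ∀ i ∈ good, i < k := fun i hi => Finset.mem_range.1 (Finset.mem_filter.1 hi).1
  have hgb : ∀ i ∈ good, i ∉ bad := fun i hi => (Finset.mem_filter.1 hi).2
  have hgsub : good ⊆ Finset.range (k + r) := by
    intro i hi
    exact Finset.mem_range.2 ((hgk i hi).trans_le (Nat.le_add_right k r))
  have hcard : k + 1 - r ≤ good.card := by
    have h2 : (Finset.range k) ⊆ good ∪ bad := by
      intro i hi
      by_cases hb : i ∈ bad
      · exact Finset.mem_union_right _ hb
      · exact Finset.mem_union_left _ (Finset.mem_filter.2 ⟨hi, hb⟩)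
    have h3 := (Finset.card_le_card h2).trans (Finset.card_union_le _ _)
    rw [Finset.card_range] at h3
    omega
  have hcardk : good.card ≤ k := by
    have := Finset.card_filter_le (Finset.range k) fun i => i ∉ bad
    rwa [Finset.card_range] at this
  have hd1 : 0 < d - 1 := by omega
  set y : ℕ → MvPolynomial ℕ E := yy k r d a Φ with hy
  set z : ℕ → MvPolynomial ℕ E := zz k r a Φ with hz
  -- the bounds of the exponents
  set N : ℕ → ℕ := fun i => (D0 + 1) * if i ∈ good then d - 1 else 1 with hN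
  set Ω : Finset (ℕ →₀ ℕ) := (Finset.range (k + r)).finsupp fun i => Finset.range (N i) with hΩ
  have hΩcard : Ω.card = (D0 + 1) ^ (k + r) * (d - 1) ^ good.card := by
    rw [hΩ, Finset.card_finsupp]
    simp only [Finset.card_range, hN]
    rw [Finset.prod_mul_distrib, Finset.prod_const, Finset.card_range]
    congr 1
    rw [Finset.prod_ite, Finset.prod_const, Finset.prod_const_one, mul_one]
    congr 1
    congr 1
    ext i
    rw [Finset.mem_filter]
    exact ⟨fun h => h.2, fun h => ⟨hgsub h, h⟩⟩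
  have hΩmem : ∀ β ∈ Ω, β.support ⊆ Finset.range (k + r) ∧ ∀ i < k + r, β i < N i := by
    intro β hβ
    rw [hΩ, Finset.mem_finsupp_iff] at hβ
    exact ⟨hβ.1, fun i hi => Finset.mem_range.1 (hβ.2 i (Finset.mem_range.2 hi))⟩
  have hα : ∀ i ∈ good, ∀ m < N i, m / (d - 1) ≤ D0 := by
    intro i hi m hm
    rw [hN] at hm
    simp only [if_pos hi] at hm
    exact Nat.lt_succ_iff.1 (Nat.div_lt_of_lt_mul (by rwa [mul_comm] at hm))
  set b : (ℕ →₀ ℕ) → MvPolynomial ℕ E := fun β =>
    ∏ i ∈ Finset.range (k + r), fac d D0 good y z i (β i) with hb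
  set wt : (ℕ →₀ ℕ) → ℕ := fun β =>
    ∑ i ∈ Finset.range (k + r), if k ≤ i then β i else 0 with hwt
  set c : (ℕ →₀ ℕ) → E := fun β =>
    ∏ i ∈ Finset.range (k + r), if i ∈ good then (-(d : E)) ^ (β i / (d - 1)) else 1 with hc
  set Ψ : MvPolynomial ℕ E :=
    ∏ i ∈ Finset.range (k + r), if i ∈ good then ζ i ^ D0 else 1 with hΨ
  have hΨ0 : Ψ ≠ 0 := by
    refine Finset.prod_ne_zero_iff.2 fun i _ => ?_
    split_ifs with hi
    · exact pow_ne_zero _ (hg i (hgk i hi) (hgb i hi)).1
    · exact one_ne_zero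
  have hd0 : (d : E) ≠ 0 := Nat.cast_ne_zero.2 (by omega)
  have hc0 : ∀ β ∈ Ω, c β ≠ 0 := by
    intro β _
    refine Finset.prod_ne_zero_iff.2 fun i _ => ?_
    split_ifs with hi
    · exact pow_ne_zero _ (neg_ne_zero.2 hd0)
    · exact one_ne_zero
  -- lowest parts of the factors
  have hfac : ∀ i < k + r, ∀ m < N i,
      LP ((if i ∈ good then M0 * D0 else 0) + if k ≤ i then m else 0)
        ((if i ∈ good then ζ i ^ D0 else 1) *
          (C (if i ∈ good then (-(d : E)) ^ (m / (d - 1)) else 1) * X i ^ m))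
        (th E k r (fac d D0 good y z i m)) :=
    fun i hi m hm => fac_lp k r d D0 M0 good y z ζ hgk (fun i hi => (hg i (hgk i hi) (hgb i hi)).2.1)
      (fun i hi => (hg i (hgk i hi) (hgb i hi)).2.2) i hi m fun h => hα i h m hm
  have hΘ : ∀ β ∈ Ω, ∃ Q : Polynomial (MvPolynomial ℕ E), th E k r (b β) =
      Polynomial.X ^ (good.card * (M0 * D0) + wt β) *
        (Polynomial.C (Ψ * monomial β (c β)) + Polynomial.X * Q) := by
    intro β hβ
    obtain ⟨hsupp, hlt⟩ := hΩmem β hβ
    have h3 := LP.prod (Finset.range (k + r)) _ _ _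
      fun i hi => hfac i (Finset.mem_range.1 hi) (β i) (hlt i (Finset.mem_range.1 hi))
    rw [← map_prod, Finset.sum_add_distrib, Finset.prod_mul_distrib, Finset.prod_mul_distrib,
      ← map_prod] at h3
    have h4 : ∑ i ∈ Finset.range (k + r), (if i ∈ good then M0 * D0 else 0) =
        good.card * (M0 * D0) := by
      rw [← Finset.sum_filter, Finset.sum_const, smul_eq_mul]
      congr 2
      ext i
      rw [Finset.mem_filter]
      exact ⟨fun h => h.2, fun h => ⟨hgsub h, h⟩⟩
    have h5 : C (c β) * ∏ i ∈ Finset.range (k + r), (X i : MvPolynomial ℕ E) ^ β i =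
        monomial β (c β) := by
      rw [monomial_eq, Finsupp.prod_of_support_subset β hsupp _ fun i _ => pow_zero _]
    rw [h4] at h3
    rw [← h5]
    exact h3
  have hLI := hIND E (th E k r) Ω wt (good.card * (M0 * D0)) Ψ c b hΨ0 hc0 hΘ
  -- membership
  have hmem : ∀ β ∈ Ω, b β ∈ W ^ ((k + r) * D0 + k * (d - 2)) := by
    intro β hβ
    obtain ⟨hsupp, hlt⟩ := hΩmem β hβ
    have h3 := prod_mem' W (Finset.range (k + r)) (fun i => D0 + if i ∈ good then d - 2 else 0)
      (fun i => fac d D0 good y z i (β i)) (by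
        intro i hi
        have hi' := Finset.mem_range.1 hi
        have hm := hlt i hi'
        show fac d D0 good y z i (β i) ∈ W ^ (D0 + if i ∈ good then d - 2 else 0)
        unfold fac
        by_cases hgi : i ∈ good
        · have hik := hgk i hgi
          have hle := hα i hgi _ hm
          rw [if_pos hgi, if_pos hgi]
          have h4 := mul_mem' W (mul_mem' W (pow_mem' W (hyz i hik).2 (β i / (d - 1)))
            (pow_mem' W (hyz i hik).1 (D0 - β i / (d - 1)))) (pow_mem' W (hX i hi') (β i % (d - 1)))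
          refine pow_mono W h1 ?_ h4
          have h5 := Nat.mod_lt (β i) hd1
          omega
        · rw [if_neg hgi, if_neg hgi]
          refine pow_mono W h1 ?_ (pow_mem' W (hX i hi') (β i))
          rw [hN] at hm
          simp only [if_neg hgi, mul_one] at hm
          omega)
    refine pow_mono W h1 ?_ h3
    rw [Finset.sum_add_distrib, Finset.sum_const, Finset.card_range, smul_eq_mul,
      ← Finset.sum_filter, Finset.sum_const, smul_eq_mul]
    refine Nat.add_le_add_left (Nat.mul_le_mul_right _ ?_) _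
    refine (Finset.card_le_card ?_).trans hcardk
    intro i hi
    exact (Finset.mem_filter.1 hi).2
  have := finite_pow W hW ((k + r) * D0 + k * (d - 2))
  have hLI2 : LinearIndependent E (fun β : Ω =>
      (⟨b β, hmem β β.2⟩ : (W ^ ((k + r) * D0 + k * (d - 2)) : Submodule E (MvPolynomial ℕ E)))) := by
    refine LinearIndependent.of_comp (Submodule.subtype _) ?_
    exact hLI
  have h6 := hLI2.fintype_card_le_finrank
  rw [Fintype.card_coe, hΩcard] at h6
  refine le_trans (Nat.mul_le_mul_left _ ?_) h6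
  exact Nat.pow_le_pow_right hd1 hcard

end Pool.Agent.BSH.H68
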